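import Mathlib

set_option autoImplicit false

namespace Pool.Agent.H947Z.Hur

/-- A space `Y` is a Hurewicz space: for every sequence of open covers there are finite
subfamilies such that every point lies in the union of the `n`-th subfamily for all but finitely
many `n`. -/
def IsHurewicz (Y : Type*) [TopologicalSpace Y] : Prop :=
  ∀ 𝒰 : ℕ → Set (Set Y), (∀ n, ∀ U ∈ 𝒰 n, IsOpen U) → (∀ n, ⋃₀ 𝒰 n = Set.univ) →
    ∃ 𝒱 : ℕ → Set (Set Y), (∀ n, 𝒱 n ⊆ 𝒰 n ∧ (𝒱 n).Finite) ∧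
      ∀ y : Y, {n : ℕ | y ∉ ⋃₀ 𝒱 n}.Finite

end Pool.Agent.H947Z.Hur
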