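import Pool.Agent.H947Z.Hur.Defs

set_option autoImplicit false

namespace Pool.Agent.H947Z.Hur

open Set Filter Topology

universe u

/-- the Hurewicz property for covers by sets of a class `O` -/
def HurO {X : Type u} (O : Set X → Prop) : Prop :=
  ∀ 𝒰 : ℕ → Set (Set X), (∀ n, ∀ U ∈ 𝒰 n, O U) → (∀ n, ⋃₀ 𝒰 n = Set.univ) →
    ∃ 𝒱 : ℕ → Set (Set X), (∀ n, 𝒱 n ⊆ 𝒰 n ∧ (𝒱 n).Finite) ∧
      ∀ y : X, {n : ℕ | y ∉ ⋃₀ 𝒱 n}.Finite

variable {X : Type u} {O : Set X → Prop}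

lemma HurO.seq (h : HurO O) (G : ℕ → ℕ → Set X) (hG : ∀ n m, O (G n m))
    (hmono : ∀ n, Monotone (G n)) (hcov : ∀ n x, ∃ m, x ∈ G n m) :
    ∃ μ : ℕ → ℕ, ∀ x, ∀ᶠ n in atTop, x ∈ G n (μ n) := by
  obtain ⟨𝒱, h1, h2⟩ := h (fun n => range (G n)) (by rintro n _ ⟨m, rfl⟩; exact hG n m)
    (fun n => by
      rw [sUnion_range]
      exact eq_univ_of_forall fun x => mem_iUnion.2 (hcov n x))
  have : ∀ n, ∃ M, ∀ V ∈ 𝒱 n, V ⊆ G n M := by
    intro n
    have h3 : ∀ V ∈ 𝒱 n, ∀ᶠ M in atTop, V ⊆ G n M := by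
      intro V hV
      obtain ⟨m, rfl⟩ := (h1 n).1 hV
      filter_upwards [eventually_ge_atTop m] with M hM using hmono n hM
    exact ((eventually_all_finite (h1 n).2).2 h3).exists
  choose μ hμ using this
  refine ⟨μ, fun x => ?_⟩
  have h4 := (h2 x).compl_mem_cofinite
  rw [Nat.cofinite_eq_atTop] at h4
  filter_upwards [h4] with n hn
  simp only [mem_compl_iff, mem_setOf_eq, not_not] at hn
  obtain ⟨V, hV, hx⟩ := hn
  exact hμ n V hV hx

lemma HurO.lindelof (h : HurO O) (𝒰 : Set (Set X)) (h1 : ∀ U ∈ 𝒰, O U) (h2 : ⋃₀ 𝒰 = univ) :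
    ∃ 𝒱 ⊆ 𝒰, 𝒱.Countable ∧ ⋃₀ 𝒱 = univ := by
  obtain ⟨𝒱, h3, h4⟩ := h (fun _ => 𝒰) (fun _ => h1) (fun _ => h2)
  refine ⟨⋃ n, 𝒱 n, iUnion_subset fun n => (h3 n).1,
    countable_iUnion fun n => (h3 n).2.countable, eq_univ_of_forall fun x => ?_⟩
  obtain ⟨n, hn⟩ := (h4 x).exists_notMem
  simp only [mem_setOf_eq, not_not] at hn
  obtain ⟨V, hV, hx⟩ := hn
  exact ⟨V, mem_iUnion.2 ⟨n, hV⟩, hx⟩

/-- positions of a countably branching tree -/
def pos {S : Type u} (nxt : S → ℕ → S) (s0 : S) : List ℕ → S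
  | [] => s0
  | m :: l => nxt (pos nxt s0 l) m

/-- the branch chosen by `ν` -/
def branch (ν : List ℕ → ℕ) : ℕ → List ℕ
  | 0 => []
  | k + 1 => ν (branch ν k) :: branch ν k

lemma branch_length (ν : List ℕ → ℕ) (k : ℕ) : (branch ν k).length = k := by
  induction k with
  | zero => rfl
  | succ k ih => simp [branch, ih]

lemma HurO.tree (h : HurO O) {S : Type u} (G : S → ℕ → Set X) (nxt : S → ℕ → S)
    (hG : ∀ s m, O (G s m)) (hmono : ∀ s, Monotone (G s)) (hcov : ∀ s x, ∃ m, x ∈ G s m)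
    (s0 : S) :
    ∃ (s : ℕ → S) (μ : ℕ → ℕ), (∀ k, s (k + 1) = nxt (s k) (μ k)) ∧
      ∀ x, ∀ᶠ k in atTop, x ∈ G (s k) (μ k) := by
  let e : List ℕ ≃ ℕ := Denumerable.eqv (List ℕ)
  obtain ⟨μ, hμ⟩ := h.seq (fun n => G (pos nxt s0 (e.symm n))) (fun n m => hG _ _)
    (fun n => hmono _) (fun n x => hcov _ x)
  let ν : List ℕ → ℕ := fun l => μ (e l)
  refine ⟨fun k => pos nxt s0 (branch ν k), fun k => ν (branch ν k), fun k => rfl, fun x => ?_⟩
  have hinj : Function.Injective (fun k => e (branch ν k)) := by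
    intro a b hab
    have := congrArg List.length (e.injective hab)
    simpa [branch_length] using this
  have := hinj.nat_tendsto_atTop.eventually (hμ x)
  filter_upwards [this] with k hk
  simpa [ν] using hk

variable [TopologicalSpace X] [CompactSpace X] [T2Space X]

lemma HurO.point (h : HurO O) (hO : ∀ U, IsOpen U → O U) {A : Set X} (hA : O A) (a : X)
    (ha : a ∈ A) :
    ∃ N : ℕ → Set X, Antitone N ∧ (∀ m, IsClosed (N m)) ∧ (∀ m, N m ∈ 𝓝 a) ∧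
      ∀ x, x ∉ A → ∃ m, x ∉ N m := by
  obtain ⟨𝒱, h1, h2, h3⟩ := h.lindelof (insert A {U | IsClosed Uᶜ ∧ Uᶜ ∈ 𝓝 a})
    (by
      rintro U (rfl | ⟨hU, -⟩)
      · exact hA
      · exact hO _ (isClosed_compl_iff.1 hU))
    (eq_univ_of_forall fun x => by
      by_cases hx : x ∈ A
      · exact ⟨A, mem_insert _ _, hx⟩
      · have hne : a ≠ x := fun e => hx (e ▸ ha)
        obtain ⟨N, hN1, hN2, hN3⟩ := exists_mem_nhds_isClosed_subset
          (isOpen_compl_singleton.mem_nhds hne : ({x}ᶜ : Set X) ∈ 𝓝 a)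
        refine ⟨Nᶜ, mem_insert_of_mem _ ⟨by simpa using hN2, by simpa using hN1⟩, fun hxN => ?_⟩
        exact hN3 hxN rfl)
  obtain ⟨T, hT⟩ := (h2.mono (inter_subset_left :
      𝒱 ∩ {U | IsClosed Uᶜ ∧ Uᶜ ∈ 𝓝 a} ⊆ 𝒱)).insert ∅ |>.exists_eq_range (insert_nonempty _ _)
  have hT' : ∀ i, IsClosed (T i)ᶜ ∧ (T i)ᶜ ∈ 𝓝 a := by
    intro i
    have : T i ∈ insert ∅ (𝒱 ∩ {U | IsClosed Uᶜ ∧ Uᶜ ∈ 𝓝 a}) := hT ▸ mem_range_self i
    rcases this with h0 | h0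
    · rw [h0]; simp
    · exact h0.2
  refine ⟨fun m => ⋂ i ∈ Iic m, (T i)ᶜ, fun m m' hm => ?_, fun m => ?_, fun m => ?_,
    fun x hx => ?_⟩
  · exact biInter_subset_biInter_left (Iic_subset_Iic.2 hm)
  · exact isClosed_biInter fun i _ => (hT' i).1
  · exact (biInter_mem (finite_Iic m)).2 fun i _ => (hT' i).2
  · obtain ⟨V, hV, hxV⟩ : x ∈ ⋃₀ 𝒱 := h3 ▸ mem_univ x
    rcases h1 hV with rfl | hV'
    · exact absurd hxV hx
    · obtain ⟨i, hi⟩ : V ∈ range T := hT ▸ mem_insert_of_mem _ ⟨hV, hV'⟩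
      refine ⟨i, fun hc => ?_⟩
      have := mem_iInter₂.1 hc i (mem_Iic.2 le_rfl)
      exact this (hi ▸ hxV)

lemma HurO.game (h : HurO O) (hO : ∀ U, IsOpen U → O U)
    (hOu : ∀ U V, O U → O V → O (U ∪ V)) {P : Set X} (hP : IsClosed P) {S : Type u}
    (U : S → Set X) (hU : ∀ s, (U s ∩ P).Nonempty) (R : S → S → Prop) (a : S → X)
    (A : S → Set X) (hA : ∀ s, O (A s)) (ha : ∀ s, a s ∈ A s)
    (hstep : ∀ s, ∀ V ∈ 𝓝 (a s), ∃ s', R s s' ∧ closure (U s') ⊆ V ∩ U s) (s0 : S) :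
    ∃ s : ℕ → S, (∀ k, R (s k) (s (k + 1))) ∧
      ∃ x ∈ P, (∀ k, x ∈ U (s k)) ∧ ∀ᶠ k in atTop, x ∈ A (s k) := by
  choose N hN1 hN2 hN3 hN4 using fun s => h.point hO (hA s) (a s) (ha s)
  choose nxt hR hcl using fun s m => hstep s (N s m) (hN3 s m)
  obtain ⟨s, μ, hs, hx⟩ := h.tree (fun s m => A s ∪ (N s m)ᶜ) nxt
    (fun s m => hOu _ _ (hA s) (hO _ (hN2 s m).isOpen_compl))
    (fun s m m' hm => union_subset_union_right _ (compl_subset_compl.2 (hN1 s hm)))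
    (fun s x => by
      by_cases hx : x ∈ A s
      · exact ⟨0, Or.inl hx⟩
      · obtain ⟨m, hm⟩ := hN4 s x hx
        exact ⟨m, Or.inr hm⟩) s0
  have hsub : ∀ k, closure (U (s (k + 1))) ⊆ N (s k) (μ k) ∩ U (s k) := fun k => by
    rw [hs k]; exact hcl _ _
  obtain ⟨x, hx'⟩ := IsCompact.nonempty_iInter_of_sequence_nonempty_isCompact_isClosed
    (fun k => closure (U (s k)) ∩ P)
    (fun k => inter_subset_inter_left _
      (((hsub k).trans inter_subset_right).trans subset_closure))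
    (fun k => (hU (s k)).mono (inter_subset_inter_left _ subset_closure))
    ((isClosed_closure.inter hP).isCompact) (fun k => isClosed_closure.inter hP)
  have hx'' := mem_iInter.1 hx'
  refine ⟨s, fun k => (hs k).symm ▸ hR _ _, x, (hx'' 0).2,
    fun k => (hsub k (hx'' (k + 1)).1).2, ?_⟩
  filter_upwards [hx x] with k hk
  rcases hk with hk | hk
  · exact hk
  · exact absurd (hsub k (hx'' (k + 1)).1).1 hk

lemma exists_open_closure_subset {x : X} {V : Set X} (hV : V ∈ 𝓝 x) :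
    ∃ W, IsOpen W ∧ x ∈ W ∧ closure W ⊆ V := by
  obtain ⟨N, hN1, hN2, hN3⟩ := exists_mem_nhds_isClosed_subset hV
  exact ⟨interior N, isOpen_interior, mem_interior_iff_mem_nhds.2 hN1,
    (closure_minimal interior_subset hN2).trans hN3⟩

/-- sets that are clopen in the finer topology are resolvable -/
lemma HurO.resolv (h : HurO O) (hO : ∀ U, IsOpen U → O U)
    (hOu : ∀ U V, O U → O V → O (U ∪ V)) {P : Set X} (hP : IsClosed P) (hne : P.Nonempty)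
    {A : Set X} (hA : O A) (hA' : O Aᶜ) :
    ∃ V, IsOpen V ∧ (V ∩ P).Nonempty ∧ (V ∩ P ⊆ A ∨ V ∩ P ⊆ Aᶜ) := by
  by_contra hcon
  push Not at hcon
  let S := {V : Set X // IsOpen V ∧ (V ∩ P).Nonempty} × Bool
  let B : Bool → Set X := fun b => if b then A else Aᶜ
  have hex : ∀ s : S, ∃ a, a ∈ s.1.1 ∩ P ∧ a ∈ B s.2 := by
    rintro ⟨⟨V, hV1, hV2⟩, b⟩
    obtain ⟨h1, h2⟩ := hcon V hV1 hV2
    cases b
    · obtain ⟨a, ha1, ha2⟩ := not_subset.1 h1
      exact ⟨a, ha1, ha2⟩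
    · obtain ⟨a, ha1, ha2⟩ := not_subset.1 h2
      exact ⟨a, ha1, not_not.1 ha2⟩
  choose a ha1 ha2 using hex
  obtain ⟨s, hs, x, -, -, hx⟩ := h.game hO hOu hP (S := S) (fun s => s.1.1) (fun s => s.1.2.2)
    (fun s s' => s'.2 = !s.2) a (fun s => B s.2)
    (fun s => by rcases s with ⟨_, _ | _⟩; exacts [hA', hA]) ha2
    (fun s V hV => by
      obtain ⟨W, hW1, hW2, hW3⟩ := exists_open_closure_subset
        (inter_mem hV (s.1.2.1.mem_nhds (ha1 s).1))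
      exact ⟨⟨⟨W, hW1, a s, hW2, (ha1 s).2⟩, !s.2⟩, rfl, hW3⟩)
    ⟨⟨univ, isOpen_univ, by simpa using hne⟩, true⟩
  obtain ⟨k, hk⟩ := eventually_atTop.1 hx
  have h1 := hk k le_rfl
  have h2 := hk (k + 1) (Nat.le_succ k)
  rw [hs k] at h2
  cases hb : (s k).2
  · rw [hb] at h1 h2; exact h1 h2
  · rw [hb] at h1 h2; exact h2 h1

lemma side {C W U A : Set X} (hW : IsOpen W) (hU : IsOpen U) {q : X} (hqU : q ∈ U) (hqW : q ∈ W)
    (hq : q ∈ closure (Aᶜ ∩ C))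
    (hsub : U ∩ (closure (A ∩ C) ∩ closure (Aᶜ ∩ C)) ⊆ A) :
    ∀ V ∈ 𝓝 q, ∃ W', IsOpen W' ∧ (W' ∩ C).Nonempty ∧ Disjoint (W' ∩ C) A ∧
      closure W' ⊆ V ∩ W := by
  intro V hV
  have hV' : interior V ∩ (U ∩ W) ∈ 𝓝 q :=
    inter_mem (interior_mem_nhds.2 hV) ((hU.inter hW).mem_nhds ⟨hqU, hqW⟩)
  obtain ⟨z, ⟨hz1, hz2, hz3⟩, hz4, hz5⟩ := mem_closure_iff_nhds.1 hq _ hV'
  have hz6 : z ∉ closure (A ∩ C) := fun hc => hz4 (hsub ⟨hz2, hc, subset_closure ⟨hz4, hz5⟩⟩)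
  obtain ⟨W', h1, h2, h3⟩ := exists_open_closure_subset
    (((isOpen_interior.inter hW).inter isClosed_closure.isOpen_compl).mem_nhds
      (⟨⟨hz1, hz3⟩, hz6⟩ : z ∈ (interior V ∩ W) ∩ (closure (A ∩ C))ᶜ))
  refine ⟨W', h1, ⟨z, h2, hz5⟩, ?_, fun y hy => ⟨interior_subset (h3 hy).1.1, (h3 hy).1.2⟩⟩
  rw [Set.disjoint_left]
  rintro y ⟨hy1, hy2⟩ hy3
  exact (h3 (subset_closure hy1)).2 (subset_closure ⟨hy3, hy2⟩)

theorem HurO.false_of_connected (h : HurO O) (hO : ∀ U, IsOpen U → O U)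
    (hOu : ∀ U V, O U → O V → O (U ∪ V))
    (hbase : ∀ x U, IsOpen U → x ∈ U → ∃ A, O A ∧ O Aᶜ ∧ x ∈ A ∧ A ⊆ U)
    {C : Set X} (hC : IsClosed C) (hconn : IsPreconnected C) (hnt : C.Nontrivial) : False := by
  let S := {W : Set X // IsOpen W ∧ (W ∩ C).Nonempty}
  have hex : ∀ s : S, ∃ (q : X) (A : Set X), O A ∧ q ∈ A ∧
      ∀ V ∈ 𝓝 q, ∃ W', IsOpen W' ∧ (W' ∩ C).Nonempty ∧ Disjoint (W' ∩ C) A ∧
        closure W' ⊆ V ∩ s.1 := by
    rintro ⟨W, hW, w, hwW, hwC⟩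
    obtain ⟨y, hyC, hy⟩ := hnt.exists_ne w
    obtain ⟨W', h1, h2, h3⟩ := exists_open_closure_subset
      ((hW.inter isOpen_compl_singleton).mem_nhds (⟨hwW, hy.symm⟩ : w ∈ W ∩ {y}ᶜ))
    obtain ⟨A, hA, hA', hwA, hAW⟩ := hbase w W' h1 h2
    have hyA : y ∉ A := fun hc => (h3 (subset_closure (hAW hc))).2 rfl
    have hF : (closure (A ∩ C) ∩ closure (Aᶜ ∩ C)).Nonempty := by
      have := isPreconnected_closed_iff.1 hconn (closure (A ∩ C)) (closure (Aᶜ ∩ C))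
        isClosed_closure isClosed_closure
        (fun z hz => by
          by_cases hzA : z ∈ A
          · exact Or.inl (subset_closure ⟨hzA, hz⟩)
          · exact Or.inr (subset_closure ⟨hzA, hz⟩))
        ⟨w, hwC, subset_closure ⟨hwA, hwC⟩⟩ ⟨y, hyC, subset_closure ⟨hyA, hyC⟩⟩
      exact this.mono inter_subset_right
    have hFW : closure (A ∩ C) ⊆ W := fun z hz =>
      (h3 (closure_mono (inter_subset_left.trans hAW) hz)).1
    obtain ⟨U, hU, ⟨q, hqU, hq⟩, hsub | hsub⟩ := h.resolv hO hOu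
      (isClosed_closure.inter isClosed_closure) hF hA hA'
    · exact ⟨q, A, hA, hsub ⟨hqU, hq⟩, side hW hU hqU (hFW hq.1) hq.2 hsub⟩
    · refine ⟨q, Aᶜ, hA', hsub ⟨hqU, hq⟩, side hW hU hqU (hFW hq.1) (by simpa using hq.1) ?_⟩
      rw [compl_compl, inter_comm (closure (Aᶜ ∩ C))]
      exact hsub
  choose q A hA hq hstep using hex
  obtain ⟨s, hs, x, hxC, hx1, hx2⟩ := h.game hO hOu hC (S := S) (fun s => s.1) (fun s => s.2.2)
    (fun s s' => Disjoint (s'.1 ∩ C) (A s)) q A hA hq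
    (fun s V hV => by
      obtain ⟨W', h1, h2, h3, h4⟩ := hstep s V hV
      exact ⟨⟨W', h1, h2⟩, h3, h4⟩)
    ⟨univ, isOpen_univ, by simpa using hnt.nonempty⟩
  obtain ⟨k, hk⟩ := hx2.exists
  exact Set.disjoint_left.1 (hs k) ⟨hx1 (k + 1), hxC⟩ hk

theorem HurO.clopen_basis (h : HurO O) (hO : ∀ U, IsOpen U → O U)
    (hOu : ∀ U V, O U → O V → O (U ∪ V))
    (hbase : ∀ x U, IsOpen U → x ∈ U → ∃ A, O A ∧ O Aᶜ ∧ x ∈ A ∧ A ⊆ U) :
    TopologicalSpace.IsTopologicalBasis {s : Set X | IsClopen s} := by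
  have : TotallyDisconnectedSpace X := by
    rw [totallyDisconnectedSpace_iff_connectedComponent_subsingleton]
    intro x
    by_contra hx
    exact h.false_of_connected hO hOu hbase isClosed_connectedComponent
      isPreconnected_connectedComponent (not_subsingleton_iff.1 hx)
  exact isTopologicalBasis_isClopen

theorem main {X : Type u} (T₁ T₂ : TopologicalSpace X)
    (hle : ∀ U : Set X, IsOpen[T₂] U → IsOpen[T₁] U)
    (hc : @CompactSpace X T₂) (h2 : @T2Space X T₂)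
    (h0 : @smallInductiveDimension X T₁ = 0) (hpos : 0 < @smallInductiveDimension X T₂) :
    ¬ @IsHurewicz X T₁ := by
  intro hH
  have hb1 : @TopologicalSpace.IsTopologicalBasis X T₁ {s : Set X | @IsClopen X T₁ s} := by
    letI := T₁
    apply hasSmallInductiveDimensionLT_one_iff.1
    exact (smallInductiveDimension_le_iff (n := 0)).1 (by rw [h0]; simp)
  have hb2 := @HurO.clopen_basis X (fun U => IsOpen[T₁] U) T₂ hc h2 hH hle
    (fun U V hU hV => @IsOpen.union X U V T₁ hU hV)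
    (fun x U hU hx => by
      letI := T₁
      obtain ⟨A, hA, hxA, hAU⟩ := hb1.exists_subset_of_mem_open hx (hle U hU)
      exact ⟨A, hA.isOpen, hA.compl.isOpen, hxA, hAU⟩)
  letI := T₂
  have := (smallInductiveDimension_le_iff (X := X) (n := 0)).2
    (hasSmallInductiveDimensionLT_one_iff.2 hb2)
  exact absurd hpos (not_lt.2 (by simpa using this))

end Pool.Agent.H947Z.Hur
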